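import Mathlib
/-!
Colouring the bars of a bar arrangement with three colours, each bar changing its colour at most
once, such that at every generic time vertically adjacent bars have different colours.
-/
namespace Pool.Agent.helper80.Bar
open Finset

variable {H : Type} [LinearOrder H]

/-- a colour function with at most one change -/
def OneCut (f : ℝ → Fin 3) : Prop :=
  ∃ (τ : ℝ) (p q : Fin 3), (∀ t, t < τ → f t = p) ∧ (∀ t, τ < t → f t = q)

/-- the bar `v` of `S` is present at time `t` -/
def Pr (S : Finset H) (b d : H → ℝ) (t : ℝ) (v : H) : Prop := v ∈ S ∧ b v < t ∧ t < d v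

/-- present, or one of the two boundary lines -/
def PrB (S : Finset H) (b d : H → ℝ) (lo hi : H) (t : ℝ) (v : H) : Prop :=
  v = lo ∨ v = hi ∨ Pr S b d t v

/-- adjacent bars (or boundary lines) at time `t` have different colours -/
def Proper (S : Finset H) (b d : H → ℝ) (lo hi : H) (c : H → ℝ → Fin 3) (t : ℝ) : Prop :=
  ∀ u v, u < v → PrB S b d lo hi t u → PrB S b d lo hi t v →
    (∀ w, Pr S b d t w → u < w → ¬ w < v) → c u t ≠ c v t

/-- `t` is not an end of a bar of `S` -/
def Gen (S : Finset H) (b d : H → ℝ) (t : ℝ) : Prop := ∀ v ∈ S, t ≠ b v ∧ t ≠ d v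

/-- the statement proved by induction -/
def Stmt (S : Finset H) : Prop :=
  ∀ (b d : H → ℝ) (lo hi : H) (clo chi : Fin 3) (a : ℝ), lo < hi → clo ≠ chi →
    (∀ v ∈ S, lo < v ∧ v < hi ∧ b v < d v) →
    ∃ c : H → ℝ → Fin 3, (∀ t, c lo t = clo) ∧ (∀ t, c hi t = chi) ∧ (∀ v ∈ S, OneCut (c v)) ∧
      (∀ v ∈ S, b v ≤ a → ∃ k, ∀ t, a < t → c v t = k) ∧
      (∀ t, a < t → Gen S b d t → Proper S b d lo hi c t)

/-- the mirror image of `Stmt` -/
def StmtRev (S : Finset H) : Prop :=
  ∀ (b d : H → ℝ) (lo hi : H) (clo chi : Fin 3) (a : ℝ), lo < hi → clo ≠ chi →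
    (∀ v ∈ S, lo < v ∧ v < hi ∧ b v < d v) →
    ∃ c : H → ℝ → Fin 3, (∀ t, c lo t = clo) ∧ (∀ t, c hi t = chi) ∧ (∀ v ∈ S, OneCut (c v)) ∧
      (∀ v ∈ S, a ≤ d v → ∃ k, ∀ t, t < a → c v t = k) ∧
      (∀ t, t < a → Gen S b d t → Proper S b d lo hi c t)

theorem OneCut.const {f : ℝ → Fin 3} {k : Fin 3} (h : ∀ t, f t = k) : OneCut f :=
  ⟨0, k, k, fun t _ => h t, fun t _ => h t⟩

theorem OneCut.neg {f : ℝ → Fin 3} (h : OneCut f) : OneCut fun t => f (-t) := by
  obtain ⟨τ, p, q, h1, h2⟩ := h
  exact ⟨-τ, q, p, fun t ht => h2 _ (by linarith), fun t ht => h1 _ (by linarith)⟩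

theorem Stmt.rev {S : Finset H} (h : Stmt S) : StmtRev S := by
  intro b d lo hi clo chi a hlh hc hS
  obtain ⟨c, c1, c2, c3, c4, c5⟩ := h (fun v => -d v) (fun v => -b v) lo hi clo chi (-a) hlh hc
    (fun v hv => ⟨(hS v hv).1, (hS v hv).2.1, neg_lt_neg (hS v hv).2.2⟩)
  refine ⟨fun v t => c v (-t), fun t => c1 _, fun t => c2 _, fun v hv => (c3 v hv).neg, ?_, ?_⟩
  · intro v hv hav
    obtain ⟨k, hk⟩ := c4 v hv (neg_le_neg hav)
    exact ⟨k, fun t ht => hk _ (by linarith)⟩
  · intro t ht hg
    have hg' : Gen S (fun v => -d v) (fun v => -b v) (-t) := by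
      intro v hv
      exact ⟨fun h => (hg v hv).2 (neg_inj.1 h), fun h => (hg v hv).1 (neg_inj.1 h)⟩
    have hp := c5 (-t) (by linarith) hg'
    have hpr : ∀ w, Pr S (fun v => -d v) (fun v => -b v) (-t) w ↔ Pr S b d t w := by
      intro w
      constructor
      · rintro ⟨h1, h2, h3⟩
        exact ⟨h1, by linarith [h3], by linarith [h2]⟩
      · rintro ⟨h1, h2, h3⟩
        exact ⟨h1, by simpa using h3, by simpa using h2⟩
    intro u v huv hu hv hn
    refine hp u v huv ?_ ?_ ?_
    · rcases hu with h | h | h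
      · exact Or.inl h
      · exact Or.inr (Or.inl h)
      · exact Or.inr (Or.inr ((hpr u).2 h))
    · rcases hv with h | h | h
      · exact Or.inl h
      · exact Or.inr (Or.inl h)
      · exact Or.inr (Or.inr ((hpr v).2 h))
    · intro w hw; exact hn w ((hpr w).1 hw)

theorem exists_third (p q : Fin 3) : ∃ r : Fin 3, r ≠ p ∧ r ≠ q := by
  revert p q; decide

/-- the main step: there is a bar present just after `a` and every bar ends after `a` -/
theorem main_step (S : Finset H) (ih : ∀ T, T ⊂ S → Stmt T)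
    (b d : H → ℝ) (lo hi : H) (clo chi : Fin 3) (a : ℝ) (hlh : lo < hi) (hcc : clo ≠ chi)
    (hS : ∀ v ∈ S, lo < v ∧ v < hi ∧ b v < d v) (hd : ∀ v ∈ S, a < d v)
    (hW : ∃ v ∈ S, b v ≤ a) :
    ∃ c : H → ℝ → Fin 3, (∀ t, c lo t = clo) ∧ (∀ t, c hi t = chi) ∧ (∀ v ∈ S, OneCut (c v)) ∧
      (∀ v ∈ S, b v ≤ a → ∃ k, ∀ t, a < t → c v t = k) ∧
      (∀ t, a < t → Gen S b d t → Proper S b d lo hi c t) := by
  classical
  set W : Finset H := S.filter (fun v => b v ≤ a) with hWdef
  have hWne : W.Nonempty := by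
    obtain ⟨v, hv, hv'⟩ := hW
    exact ⟨v, mem_filter.2 ⟨hv, hv'⟩⟩
  obtain ⟨P, hPW, hPmin⟩ := W.exists_min_image d hWne
  have hPS : P ∈ S := (mem_filter.1 hPW).1
  have hPa : b P ≤ a := (mem_filter.1 hPW).2
  set r0 : ℝ := d P with hr0
  have har : a < r0 := hd P hPS
  -- the lower neighbour of `P` on the wall
  obtain ⟨lo', hlo'P, hlo'c, hlo'n⟩ : ∃ lo' : H, lo' < P ∧ (lo' = lo ∨ lo' ∈ W) ∧
      (∀ w, w ∈ W → lo' < w → ¬ w < P) ∧ lo ≤ lo' := by
    set A : Finset H := (insert lo W).filter (· < P) with hA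
    have hAne : A.Nonempty := ⟨lo, mem_filter.2 ⟨mem_insert_self _ _, (hS P hPS).1⟩⟩
    have hm := A.max'_mem hAne
    refine ⟨A.max' hAne, (mem_filter.1 hm).2, mem_insert.1 (mem_filter.1 hm).1, ?_, ?_⟩
    · intro w hw h1 h2
      have := A.le_max' w (mem_filter.2 ⟨mem_insert_of_mem hw, h2⟩)
      exact absurd h1 (not_lt.2 this)
    · exact A.le_max' lo (mem_filter.2 ⟨mem_insert_self _ _, (hS P hPS).1⟩)
  obtain ⟨hlo'n, hlolo'⟩ := hlo'n
  obtain ⟨hi', hPhi', hhi'c, hhi'n, hhi'hi⟩ : ∃ hi' : H, P < hi' ∧ (hi' = hi ∨ hi' ∈ W) ∧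
      (∀ w, w ∈ W → P < w → ¬ w < hi') ∧ hi' ≤ hi := by
    set A : Finset H := (insert hi W).filter (P < ·) with hA
    have hAne : A.Nonempty := ⟨hi, mem_filter.2 ⟨mem_insert_self _ _, (hS P hPS).2.1⟩⟩
    have hm := A.min'_mem hAne
    refine ⟨A.min' hAne, (mem_filter.1 hm).2, mem_insert.1 (mem_filter.1 hm).1, ?_, ?_⟩
    · intro w hw h1 h2
      have := A.min'_le w (mem_filter.2 ⟨mem_insert_of_mem hw, h1⟩)
      exact absurd h2 (not_lt.2 this)
    · exact A.min'_le hi (mem_filter.2 ⟨mem_insert_self _ _, (hS P hPS).2.1⟩)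
  -- the reduced system
  set inr : H → Prop := fun v => lo' < v ∧ v < hi' with hinr
  have hinrP : inr P := ⟨hlo'P, hPhi'⟩
  set S' : Finset H := S.filter (fun v => inr v → r0 < d v) with hS'
  set b' : H → ℝ := fun v => if inr v ∧ b v < r0 then a else b v with hb'
  have hS'sub : S' ⊂ S := by
    refine (ssubset_iff_of_subset (filter_subset _ _)).2 ⟨P, hPS, ?_⟩
    intro h
    exact lt_irrefl _ ((mem_filter.1 h).2 hinrP)
  have hS'v : ∀ v ∈ S', lo < v ∧ v < hi ∧ b' v < d v := by
    intro v hv
    have hvS := (mem_filter.1 hv).1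
    refine ⟨(hS v hvS).1, (hS v hvS).2.1, ?_⟩
    by_cases h : inr v ∧ b v < r0
    · simp only [hb', if_pos h]; exact hd v hvS
    · simp only [hb', if_neg h]; exact (hS v hvS).2.2
  obtain ⟨c', c1, c2, c3, c4, c5⟩ := ih S' hS'sub b' d lo hi clo chi a hlh hcc hS'v
  -- colours of the wall neighbours
  have hlo'inr : ¬ inr lo' := fun h => lt_irrefl _ h.1
  have hhi'inr : ¬ inr hi' := fun h => lt_irrefl _ h.2
  have hwall : ∀ v, v ∈ W → ¬ inr v → ∃ k, ∀ t, a < t → c' v t = k := by
    intro v hv hni
    have hvS := (mem_filter.1 hv).1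
    apply c4 v (mem_filter.2 ⟨hvS, fun h => absurd h hni⟩)
    have : ¬ (inr v ∧ b v < r0) := fun h => hni h.1
    simp only [hb', if_neg this]
    exact (mem_filter.1 hv).2
  obtain ⟨kl, hkl⟩ : ∃ k, ∀ t, a < t → c' lo' t = k := by
    rcases hlo'c with h | h
    · exact ⟨clo, fun t _ => by rw [h]; exact c1 t⟩
    · exact hwall _ h hlo'inr
  obtain ⟨kh, hkh⟩ : ∃ k, ∀ t, a < t → c' hi' t = k := by
    rcases hhi'c with h | h
    · exact ⟨chi, fun t _ => by rw [h]; exact c2 t⟩
    · exact hwall _ h hhi'inr
  obtain ⟨cP, hcPl, hcPh⟩ := exists_third kl kh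
  -- the two lenses
  set Lm : Finset H := S.filter (fun v => lo' < v ∧ v < P ∧ b v < r0) with hLm
  set Lp : Finset H := S.filter (fun v => P < v ∧ v < hi' ∧ b v < r0) with hLp
  have hLmsub : Lm ⊂ S := by
    refine (ssubset_iff_of_subset (filter_subset _ _)).2 ⟨P, hPS, ?_⟩
    intro h
    exact lt_irrefl _ (mem_filter.1 h).2.2.1
  have hLpsub : Lp ⊂ S := by
    refine (ssubset_iff_of_subset (filter_subset _ _)).2 ⟨P, hPS, ?_⟩
    intro h
    exact lt_irrefl _ (mem_filter.1 h).2.1
  obtain ⟨cm, m1, m2, m3, m4, m5⟩ := (ih Lm hLmsub).rev b d lo' P kl cP r0 hlo'P hcPl.symm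
    (fun v hv => ⟨(mem_filter.1 hv).2.1, (mem_filter.1 hv).2.2.1, (hS v (mem_filter.1 hv).1).2.2⟩)
  obtain ⟨cp, p1, p2, p3, p4, p5⟩ := (ih Lp hLpsub).rev b d P hi' cP kh r0 hPhi' hcPh
    (fun v hv => ⟨(mem_filter.1 hv).2.1, (mem_filter.1 hv).2.2.1, (hS v (mem_filter.1 hv).1).2.2⟩)
  set cL : H → ℝ → Fin 3 := fun v t => if v < P then cm v t else cp v t with hcL
  set c : H → ℝ → Fin 3 := fun v t => if v = P then cP else
    if inr v ∧ b v < r0 then (if t < r0 ∨ d v ≤ r0 then cL v t else c' v t) else c' v t with hc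
  have cP_eq : ∀ t, c P t = cP := fun t => by simp only [hc, if_true]
  have c_out : ∀ v t, v ≠ P → ¬ (inr v ∧ b v < r0) → c v t = c' v t := by
    intro v t h1 h2
    simp only [hc, if_neg h1, if_neg h2]
  have c_in : ∀ v t, v ≠ P → inr v → b v < r0 → (t < r0 ∨ d v ≤ r0) → c v t = cL v t := by
    intro v t h1 h2 h3 h4
    simp only [hc, if_neg h1, if_pos (And.intro h2 h3), if_pos h4]
  have c_late : ∀ v t, v ≠ P → r0 < t → r0 < d v → c v t = c' v t := by
    intro v t h1 h2 h3
    by_cases h : inr v ∧ b v < r0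
    · have h4 : ¬ (t < r0 ∨ d v ≤ r0) := by
        rintro (h | h)
        · exact absurd h (not_lt.2 h2.le)
        · exact absurd h3 (not_lt.2 h)
      simp only [hc, if_neg h1, if_pos h, if_neg h4]
    · exact c_out v t h1 h
  have cL_m : ∀ v t, v < P → cL v t = cm v t := fun v t h => by simp only [hcL, if_pos h]
  have cL_p : ∀ v t, P < v → cL v t = cp v t := fun v t h => by
    simp only [hcL, if_neg (not_lt.2 h.le)]
  have hloP : lo ≠ P := (hS P hPS).1.ne
  have hhiP : hi ≠ P := (hS P hPS).2.1.ne'
  have hloinr : ¬ inr lo := fun h => absurd h.1 (not_lt.2 hlolo')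
  have hhiinr : ¬ inr hi := fun h => absurd h.2 (not_lt.2 hhi'hi)
  have hwallinr : ∀ v ∈ S, b v ≤ a → v ≠ P → ¬ inr v := by
    intro v hv hva hvP hi
    have hvW : v ∈ W := mem_filter.2 ⟨hv, hva⟩
    rcases lt_or_gt_of_ne hvP with h | h
    · exact hlo'n v hvW hi.1 h
    · exact hhi'n v hvW h hi.2
  -- membership in the lenses
  have memLm : ∀ v ∈ S, inr v → v < P → b v < r0 → v ∈ Lm :=
    fun v hv h1 h2 h3 => mem_filter.2 ⟨hv, h1.1, h2, h3⟩
  have memLp : ∀ v ∈ S, inr v → P < v → b v < r0 → v ∈ Lp :=
    fun v hv h1 h2 h3 => mem_filter.2 ⟨hv, h2, h1.2, h3⟩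
  refine ⟨c, ?_, ?_, ?_, ?_, ?_⟩
  · intro t
    rw [c_out lo t hloP (fun h => hloinr h.1)]; exact c1 t
  · intro t
    rw [c_out hi t hhiP (fun h => hhiinr h.1)]; exact c2 t
  · -- one cut
    intro v hv
    by_cases hvP : v = P
    · rw [hvP]; exact OneCut.const cP_eq
    by_cases h : inr v ∧ b v < r0
    · have hcut : OneCut (cL v) := by
        rcases lt_or_gt_of_ne hvP with h1 | h1
        · have : cL v = cm v := funext fun t => cL_m v t h1
          rw [this]; exact m3 v (memLm v hv h.1 h1 h.2)
        · have : cL v = cp v := funext fun t => cL_p v t h1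
          rw [this]; exact p3 v (memLp v hv h.1 h1 h.2)
      by_cases hdv : d v ≤ r0
      · have : c v = cL v := funext fun t => c_in v t hvP h.1 h.2 (Or.inr hdv)
        rw [this]; exact hcut
      · rw [not_le] at hdv
        obtain ⟨k1, hk1⟩ : ∃ k, ∀ t, t < r0 → cL v t = k := by
          rcases lt_or_gt_of_ne hvP with h1 | h1
          · obtain ⟨k, hk⟩ := m4 v (memLm v hv h.1 h1 h.2) hdv.le
            exact ⟨k, fun t ht => by rw [cL_m v t h1]; exact hk t ht⟩
          · obtain ⟨k, hk⟩ := p4 v (memLp v hv h.1 h1 h.2) hdv.le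
            exact ⟨k, fun t ht => by rw [cL_p v t h1]; exact hk t ht⟩
        have hvS' : v ∈ S' := mem_filter.2 ⟨hv, fun _ => hdv⟩
        obtain ⟨k2, hk2⟩ := c4 v hvS' (by simp only [hb', if_pos h]; exact le_rfl)
        refine ⟨r0, k1, k2, ?_, ?_⟩
        · intro t ht
          rw [c_in v t hvP h.1 h.2 (Or.inl ht)]; exact hk1 t ht
        · intro t ht
          rw [c_late v t hvP ht hdv]; exact hk2 t (har.trans ht)
    · have : c v = c' v := funext fun t => c_out v t hvP h
      rw [this]
      apply c3 v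
      refine mem_filter.2 ⟨hv, fun hin => ?_⟩
      have : r0 ≤ b v := not_lt.1 fun h' => h ⟨hin, h'⟩
      exact lt_of_le_of_lt this (hS v hv).2.2
  · -- constant on the wall
    intro v hv hva
    by_cases hvP : v = P
    · rw [hvP]; exact ⟨cP, fun t _ => cP_eq t⟩
    have hni := hwallinr v hv hva hvP
    obtain ⟨k, hk⟩ := hwall v (mem_filter.2 ⟨hv, hva⟩) hni
    exact ⟨k, fun t ht => by rw [c_out v t hvP (fun h => hni h.1)]; exact hk t ht⟩
  · intro t hat hg u v huv hu hv hn
    have hg' : Gen S' b' d t := by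
      intro w hw
      have hwS := (mem_filter.1 hw).1
      refine ⟨?_, (hg w hwS).2⟩
      by_cases h : inr w ∧ b w < r0
      · simp only [hb', if_pos h]; exact hat.ne'
      · simp only [hb', if_neg h]; exact (hg w hwS).1
    rcases lt_or_gt_of_ne (hg P hPS).2 with htr | htr
    · -- before `r0`
      have hPpr : Pr S b d t P := ⟨hPS, lt_of_le_of_lt hPa hat, htr⟩
      have hlo'pr : lo' = lo ∨ Pr S b d t lo' := by
        rcases hlo'c with h | h
        · exact Or.inl h
        · exact Or.inr ⟨(mem_filter.1 h).1, lt_of_le_of_lt (mem_filter.1 h).2 hat,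
            lt_of_lt_of_le htr (hPmin _ h)⟩
      have hhi'pr : hi' = hi ∨ Pr S b d t hi' := by
        rcases hhi'c with h | h
        · exact Or.inl h
        · exact Or.inr ⟨(mem_filter.1 h).1, lt_of_le_of_lt (mem_filter.1 h).2 hat,
            lt_of_lt_of_le htr (hPmin _ h)⟩
      have hlou : lo ≤ u := by
        rcases hu with h | h | h
        · exact h.ge
        · rw [h]; exact hlh.le
        · exact (hS u h.1).1.le
      have hvhi : v ≤ hi := by
        rcases hv with h | h | h
        · rw [h]; exact hlh.le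
        · exact h.le
        · exact (hS v h.1).2.1.le
      -- no straddling
      have nP : ¬ (u < P ∧ P < v) := fun h => hn P hPpr h.1 h.2
      have nlo : ¬ (u < lo' ∧ lo' < v) := by
        rintro ⟨h1, h2⟩
        rcases hlo'pr with h | h
        · rw [h] at h1; exact absurd h1 (not_lt.2 hlou)
        · exact hn lo' h h1 h2
      have nhi : ¬ (u < hi' ∧ hi' < v) := by
        rintro ⟨h1, h2⟩
        rcases hhi'pr with h | h
        · rw [h] at h2; exact absurd h2 (not_lt.2 hvhi)
        · exact hn hi' h h1 h2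
      -- outside part
      have outside : ¬ inr u → ¬ inr v → u ≠ P → v ≠ P → (∀ w, u < w → w < v → ¬ inr w) →
          c u t ≠ c v t := by
        intro hiu hiv huP hvP hw
        rw [c_out u t huP (fun h => hiu h.1), c_out v t hvP (fun h => hiv h.1)]
        have tr : ∀ x, ¬ inr x → PrB S b d lo hi t x → PrB S' b' d lo hi t x := by
          intro x hx h
          rcases h with h | h | h
          · exact Or.inl h
          · exact Or.inr (Or.inl h)
          · refine Or.inr (Or.inr ⟨mem_filter.2 ⟨h.1, fun h' => absurd h' hx⟩, ?_, h.2.2⟩)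
            have : ¬ (inr x ∧ b x < r0) := fun h' => hx h'.1
            simp only [hb', if_neg this]; exact h.2.1
        refine c5 t hat hg' u v huv (tr u hiu hu) (tr v hiv hv) ?_
        intro w hwp h1 h2
        have hiw := hw w h1 h2
        refine hn w ⟨(mem_filter.1 hwp.1).1, ?_, hwp.2.2⟩ h1 h2
        have : ¬ (inr w ∧ b w < r0) := fun h' => hiw h'.1
        have h3 := hwp.2.1
        simp only [hb', if_neg this] at h3
        exact h3
      rcases le_or_gt v lo' with h1 | h1
      · -- below `lo'`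
        refine outside ?_ ?_ ?_ ?_ ?_
        · exact fun h => absurd h.1 (not_lt.2 (huv.le.trans h1))
        · exact fun h => absurd h.1 (not_lt.2 h1)
        · exact (lt_of_lt_of_le huv h1 |>.trans hlo'P).ne
        · exact (lt_of_le_of_lt h1 hlo'P).ne
        · exact fun w _ hw h => absurd h.1 (not_lt.2 (hw.le.trans h1))
      · have hu1 : lo' ≤ u := not_lt.1 fun h => nlo ⟨h, h1⟩
        rcases le_or_gt hi' u with h2 | h2
        · -- above `hi'`
          refine outside ?_ ?_ ?_ ?_ ?_
          · exact fun h => absurd h.2 (not_lt.2 h2)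
          · exact fun h => absurd h.2 (not_lt.2 (h2.trans huv.le))
          · exact (lt_of_lt_of_le hPhi' h2).ne'
          · exact (lt_of_lt_of_le hPhi' (h2.trans huv.le)).ne'
          · exact fun w hw _ h => absurd h.2 (not_lt.2 (h2.trans hw.le))
        · have hv1 : v ≤ hi' := not_lt.1 fun h => nhi ⟨h2, h⟩
          -- colours of the three lines
          have clo' : c lo' t = kl := by
            rw [c_out lo' t hlo'P.ne (fun h => hlo'inr h.1)]; exact hkl t hat
          have chi' : c hi' t = kh := by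
            rw [c_out hi' t hPhi'.ne' (fun h => hhi'inr h.1)]; exact hkh t hat
          rcases le_or_gt v P with h3 | h3
          · -- in the lower lens
            have tr : ∀ x, lo' ≤ x → x ≤ P → PrB S b d lo hi t x →
                c x t = cm x t ∧ PrB Lm b d lo' P t x := by
              intro x hx1 hx2 hx
              rcases hx1.eq_or_lt with h | h
              · rw [← h]; exact ⟨by rw [clo', m1], Or.inl rfl⟩
              rcases hx2.eq_or_lt with h' | h'
              · rw [h']; exact ⟨by rw [cP_eq, m2], Or.inr (Or.inl rfl)⟩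
              have hxp : Pr S b d t x := by
                rcases hx with h4 | h4 | h4
                · rw [h4] at h; exact absurd h (not_lt.2 hlolo')
                · rw [h4] at h'; exact absurd h' (not_lt.2 (hS P hPS).2.1.le)
                · exact h4
              have hxin : inr x := ⟨h, h'.trans hPhi'⟩
              have hbx : b x < r0 := hxp.2.1.trans htr
              refine ⟨?_, Or.inr (Or.inr ⟨memLm x hxp.1 hxin h' hbx, hxp.2⟩)⟩
              rw [c_in x t h'.ne hxin hbx (Or.inl htr), cL_m x t h']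
            obtain ⟨e1, q1⟩ := tr u hu1 (huv.le.trans h3) hu
            obtain ⟨e2, q2⟩ := tr v h1.le h3 hv
            rw [e1, e2]
            refine m5 t htr ?_ u v huv q1 q2 ?_
            · intro w hw; exact hg w (mem_filter.1 hw).1
            · intro w hw; exact hn w ⟨(mem_filter.1 hw.1).1, hw.2⟩
          · have hu3 : P ≤ u := not_lt.1 fun h => nP ⟨h, h3⟩
            have tr : ∀ x, P ≤ x → x ≤ hi' → PrB S b d lo hi t x →
                c x t = cp x t ∧ PrB Lp b d P hi' t x := by
              intro x hx1 hx2 hx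
              rcases hx1.eq_or_lt with h | h
              · rw [← h]; exact ⟨by rw [cP_eq, p1], Or.inl rfl⟩
              rcases hx2.eq_or_lt with h' | h'
              · rw [h']; exact ⟨by rw [chi', p2], Or.inr (Or.inl rfl)⟩
              have hxp : Pr S b d t x := by
                rcases hx with h4 | h4 | h4
                · rw [h4] at h; exact absurd h (not_lt.2 (hS P hPS).1.le)
                · rw [h4] at h'; exact absurd h' (not_lt.2 hhi'hi)
                · exact h4
              have hxin : inr x := ⟨hlo'P.trans h, h'⟩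
              have hbx : b x < r0 := hxp.2.1.trans htr
              refine ⟨?_, Or.inr (Or.inr ⟨memLp x hxp.1 hxin h hbx, hxp.2⟩)⟩
              rw [c_in x t h.ne' hxin hbx (Or.inl htr), cL_p x t h]
            obtain ⟨e1, q1⟩ := tr u hu3 h2.le hu
            obtain ⟨e2, q2⟩ := tr v h3.le hv1 hv
            rw [e1, e2]
            refine p5 t htr ?_ u v huv q1 q2 ?_
            · intro w hw; exact hg w (mem_filter.1 hw).1
            · intro w hw; exact hn w ⟨(mem_filter.1 hw.1).1, hw.2⟩
    · -- after `r0`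
      have htr' : r0 < t := htr
      have hpr : ∀ x, Pr S b d t x ↔ Pr S' b' d t x := by
        intro x
        constructor
        · rintro ⟨h1, h2, h3⟩
          refine ⟨mem_filter.2 ⟨h1, fun _ => htr'.trans h3⟩, ?_, h3⟩
          by_cases h : inr x ∧ b x < r0
          · simp only [hb', if_pos h]; exact hat
          · simp only [hb', if_neg h]; exact h2
        · rintro ⟨h1, h2, h3⟩
          refine ⟨(mem_filter.1 h1).1, ?_, h3⟩
          by_cases h : inr x ∧ b x < r0
          · exact h.2.trans htr'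
          · simp only [hb', if_neg h] at h2; exact h2
      have hcc' : ∀ x, PrB S b d lo hi t x → c x t = c' x t := by
        intro x hx
        rcases hx with h | h | h
        · rw [h]; exact c_out lo t hloP (fun h => hloinr h.1)
        · rw [h]; exact c_out hi t hhiP (fun h => hhiinr h.1)
        · refine c_late x t ?_ htr' (htr'.trans h.2.2)
          intro hxP
          rw [hxP] at h
          exact absurd h.2.2 (not_lt.2 htr'.le)
      have tr : ∀ x, PrB S b d lo hi t x → PrB S' b' d lo hi t x := by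
        intro x hx
        rcases hx with h | h | h
        · exact Or.inl h
        · exact Or.inr (Or.inl h)
        · exact Or.inr (Or.inr ((hpr x).1 h))
      rw [hcc' u hu, hcc' v hv]
      exact c5 t hat hg' u v huv (tr u hu) (tr v hv) fun w hw => hn w ((hpr w).2 hw)

theorem stmt_all (S : Finset H) : Stmt S := by
  classical
  induction S using Finset.strongInduction with
  | H S ih =>
    intro b d lo hi clo chi a hlh hcc hS
    by_cases hd : ∀ v ∈ S, a < d v
    · -- every bar ends after `a`
      rcases S.eq_empty_or_nonempty with hSe | hSne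
      · subst hSe
        refine ⟨fun v _ => if v = lo then clo else chi, fun t => by simp, fun t => by
          simp [hlh.ne'], by simp, by simp, ?_⟩
        intro t _ _ u v huv hu hv _
        have hu' : u = lo ∨ u = hi := by
          rcases hu with h | h | h
          · exact Or.inl h
          · exact Or.inr h
          · simp [Pr] at h
        have hv' : v = lo ∨ v = hi := by
          rcases hv with h | h | h
          · exact Or.inl h
          · exact Or.inr h
          · simp [Pr] at h
        rcases hu' with rfl | rfl <;> rcases hv' with rfl | rfl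
        · exact absurd huv (lt_irrefl _)
        · simpa [hlh.ne'] using hcc
        · exact absurd huv (not_lt.2 hlh.le)
        · exact absurd huv (lt_irrefl _)
      by_cases hW : ∃ v ∈ S, b v ≤ a
      · exact main_step S ih b d lo hi clo chi a hlh hcc hS hd hW
      · push Not at hW
        -- start later
        obtain ⟨v0, hv0, hmin⟩ := S.exists_min_image b hSne
        obtain ⟨c, c1, c2, c3, c4, c5⟩ := main_step S ih b d lo hi clo chi (b v0) hlh hcc hS
          (fun v hv => lt_of_le_of_lt (hmin v hv) (hS v hv).2.2) ⟨v0, hv0, le_rfl⟩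
        refine ⟨c, c1, c2, c3, fun v hv h => absurd h (not_le.2 (hW v hv)), ?_⟩
        intro t hat hg
        rcases lt_or_ge (b v0) t with h | h
        · exact c5 t h hg
        · intro u v huv hu hv _
          have none : ∀ x, ¬ Pr S b d t x := fun x hx =>
            absurd hx.2.1 (not_lt.2 (h.trans (hmin x hx.1)))
          have hu' : u = lo ∨ u = hi := by
            rcases hu with h | h | h
            · exact Or.inl h
            · exact Or.inr h
            · exact absurd h (none _)
          have hv' : v = lo ∨ v = hi := by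
            rcases hv with h | h | h
            · exact Or.inl h
            · exact Or.inr h
            · exact absurd h (none _)
          rcases hu' with rfl | rfl <;> rcases hv' with rfl | rfl
          · exact absurd huv (lt_irrefl _)
          · rw [c1, c2]; exact hcc
          · exact absurd huv (not_lt.2 hlh.le)
          · exact absurd huv (lt_irrefl _)
    · push Not at hd
      obtain ⟨v0, hv0, hv0d⟩ := hd
      obtain ⟨c, c1, c2, c3, c4, c5⟩ := ih (S.erase v0) (erase_ssubset hv0) b d lo hi clo chi a hlh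
        hcc (fun v hv => hS v (mem_of_mem_erase hv))
      have hlo : lo ≠ v0 := (hS v0 hv0).1.ne
      have hhi : hi ≠ v0 := (hS v0 hv0).2.1.ne'
      have none : ∀ t, a < t → ¬ Pr S b d t v0 := fun t ht h =>
        absurd h.2.2 (not_lt.2 (hv0d.trans ht.le))
      refine ⟨fun v t => if v = v0 then clo else c v t, fun t => by simp only [if_neg hlo]; exact c1 t,
        fun t => by simp only [if_neg hhi]; exact c2 t, ?_, ?_, ?_⟩
      · intro v hv
        by_cases h : v = v0
        · exact OneCut.const (k := clo) fun t => by simp only [if_pos h]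
        · have := c3 v (mem_erase.2 ⟨h, hv⟩)
          simp only [if_neg h]; exact this
      · intro v hv hva
        by_cases h : v = v0
        · exact ⟨clo, fun t _ => by simp only [if_pos h]⟩
        · have := c4 v (mem_erase.2 ⟨h, hv⟩) hva
          simp only [if_neg h]; exact this
      · intro t hat hg u v huv hu hv hn
        have hpr : ∀ x, Pr S b d t x → Pr (S.erase v0) b d t x := by
          intro x hx
          refine ⟨mem_erase.2 ⟨?_, hx.1⟩, hx.2⟩
          rintro rfl
          exact none t hat hx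
        have key : ∀ x, PrB S b d lo hi t x → x ≠ v0 ∧ PrB (S.erase v0) b d lo hi t x := by
          intro x hx
          rcases hx with h | h | h
          · rw [h]; exact ⟨hlo, Or.inl rfl⟩
          · rw [h]; exact ⟨hhi, Or.inr (Or.inl rfl)⟩
          · exact ⟨(mem_erase.1 (hpr x h).1).1, Or.inr (Or.inr (hpr x h))⟩
        obtain ⟨hu1, hu2⟩ := key u hu
        obtain ⟨hv1, hv2⟩ := key v hv
        simp only [if_neg hu1, if_neg hv1]
        refine c5 t hat (fun w hw => hg w (mem_of_mem_erase hw)) u v huv hu2 hv2 ?_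
        intro w hw
        exact hn w ⟨mem_of_mem_erase hw.1, hw.2⟩

end Pool.Agent.helper80.Bar
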