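import Mathlib
/-!
Bar `k`-visibility graphs: definitions.
-/
namespace Pool.Agent.helper80.Bar

/-- A bar representation with one bar for every element of `V`.  The bar of `v` is the closed
horizontal segment of positive length with left end `(l v, y v)` and right end `(r v, y v)`.
Different bars are disjoint, and the ends of all bars have pairwise different `x`-coordinates. -/
structure BarRep (V : Type) where
  y : V → ℝ
  l : V → ℝ
  r : V → ℝ
  l_lt_r : ∀ v, l v < r v
  disj : ∀ u v, u ≠ v → Disjoint (Set.Icc (l u) (r u) ×ˢ {y u}) (Set.Icc (l v) (r v) ×ˢ {y v})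
  l_inj : ∀ u v, l u = l v → u = v
  r_inj : ∀ u v, r u = r v → u = v
  l_ne_r : ∀ u v, l u ≠ r v

/-- The bar of `v`, a subset of the plane. -/
def BarRep.bar {V : Type} (R : BarRep V) (v : V) : Set (ℝ × ℝ) :=
  Set.Icc (R.l v) (R.r v) ×ˢ {R.y v}

/-- The relative interior of the bar of `v`. -/
def BarRep.openBar {V : Type} (R : BarRep V) (v : V) : Set (ℝ × ℝ) :=
  Set.Ioo (R.l v) (R.r v) ×ˢ {R.y v}

/-- The bar `k`-visibility graph: two different vertices `u` and `v` are adjacent when there is a
vertical segment from a point of the relative interior of the bar of `u` to a point of the relative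
interior of the bar of `v` which meets at most `k` other bars. -/
def BarRep.visGraph {V : Type} (R : BarRep V) (k : ℕ) : SimpleGraph V where
  Adj u v := u ≠ v ∧ ∃ z ∈ R.openBar u, ∃ z' ∈ R.openBar v, z.1 = z'.1 ∧
    {w | w ≠ u ∧ w ≠ v ∧ (segment ℝ z z' ∩ R.bar w).Nonempty}.encard ≤ k
  symm := ⟨by
    rintro u v ⟨h, z, hz, z', hz', h1, h2⟩
    refine ⟨h.symm, z', hz', z, hz, h1.symm, ?_⟩
    rw [segment_symm]
    have e : {w | w ≠ v ∧ w ≠ u ∧ (segment ℝ z z' ∩ R.bar w).Nonempty} =
        {w | w ≠ u ∧ w ≠ v ∧ (segment ℝ z z' ∩ R.bar w).Nonempty} := by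
      ext w; constructor <;> (rintro ⟨a, b, c⟩; exact ⟨b, a, c⟩)
    rw [e]; exact h2⟩
  loopless := ⟨fun u h => h.1 rfl⟩

end Pool.Agent.helper80.Bar
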