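import Pool.Agent.helper68.Arcs.Draw
import Pool.Agent.helper80.Bar.Color
/-!
Planarity of the visibility graph of a system of intervals with heights.
-/
namespace Pool.Agent.helper80.Bar
open Set Pool.Agent.helper68.Arcs

theorem planar_of_edges {W ι : Type} [Finite W] (B : Cyl W) (E : Edges B ι) (G : SimpleGraph W)
    (hG : ∀ u v, G.Adj u v → ∃ i, s(E.lo i, E.hi i) = s(u, v)) : Planar G := by
  classical
  obtain ⟨p, A, hp, hA, hA2, hA3⟩ := exists_drawing E
  have uniq : ∀ i j, s(E.lo i, E.hi i) = s(E.lo j, E.hi j) → i = j := by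
    intro i j h
    rw [Sym2.eq_iff] at h
    rcases h with ⟨h1, h2⟩ | ⟨h1, h2⟩
    · exact E.uniq i j h1 h2
    · have a1 := (E.sees i).2.2.1
      have a2 := (E.sees j).2.2.1
      rw [h1, h2] at a1
      exact absurd a1 (not_lt.2 a2.le)
  have hcho : ∀ e ∈ G.edgeSet, ∃ i, s(E.lo i, E.hi i) = e := by
    intro e he
    induction e using Sym2.ind with
    | _ u v => exact hG u v he
  refine ⟨p, fun e => if hx : ∃ i, s(E.lo i, E.hi i) = e then A hx.choose else ∅, hp, ?_, ?_, ?_⟩
  · intro u v huv
    have hx := hG u v huv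
    simp only [dif_pos hx]
    have h1 := hx.choose_spec
    have h2 := hA hx.choose
    rw [Sym2.eq_iff] at h1
    rcases h1 with ⟨h3, h4⟩ | ⟨h3, h4⟩
    · rw [h3, h4] at h2; exact h2
    · rw [h3, h4] at h2; exact h2.symm
  · intro e he w hw
    have hx := hcho e he
    simp only [dif_pos hx] at hw
    have h1 := hx.choose_spec
    rw [← h1]
    rcases hA2 _ w hw with h | h
    · rw [h]; simp
    · rw [h]; simp
  · intro e he f hf hef z hz hz'
    have hx := hcho e he
    have hy := hcho f hf
    simp only [dif_pos hx] at hz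
    simp only [dif_pos hy] at hz'
    have h1 := hx.choose_spec
    have h2 := hy.choose_spec
    have hne : hx.choose ≠ hy.choose := by
      intro h
      apply hef
      rw [← h1, ← h2, h]
    obtain ⟨w, hw1, hw2, hw3⟩ := hA3 _ _ hne z hz hz'
    refine ⟨w, ?_, ?_, hw3⟩
    · rw [← h1]
      rcases hw1 with h | h <;> rw [h] <;> simp
    · rw [← h2]
      rcases hw2 with h | h <;> rw [h] <;> simp

/-- The visibility graph of a finite family of intervals `I v`, at pairwise different heights
`h v`, is planar. -/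
theorem planar_of_intervals {V : Type} [Finite V] (h : V → ℝ) (I : V → Set ℝ)
    (hinj : Function.Injective h) (hI : ∀ v, (I v).OrdConnected) (G : SimpleGraph V)
    (hG : ∀ u v, G.Adj u v → h u < h v → ∃ t, t ∈ I u ∧ t ∈ I v ∧
      ∀ w, t ∈ I w → h u < h w → ¬ h w < h v) : Planar G := by
  classical
  have hpi := Real.pi_pos
  have hin : ∀ {v : V}, (I v).Nonempty → ∀ x y : ℝ, x ∈ Ioo (-(Real.pi / 2)) (Real.pi / 2) →
      y ∈ Ioo (-(Real.pi / 2)) (Real.pi / 2) → ∀ k : ℤ, x = y + k * (2 * Real.pi) → k = 0 := by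
    intro v _ x y hx hy k hk
    by_contra hne
    have h1 : (1 : ℝ) ≤ |(k : ℝ)| := by
      have : (1 : ℤ) ≤ |k| := Int.one_le_abs hne
      exact_mod_cast this
    have h2 : |x - y| = |(k : ℝ)| * (2 * Real.pi) := by
      rw [hk]
      have : y + (k : ℝ) * (2 * Real.pi) - y = k * (2 * Real.pi) := by ring
      rw [this, abs_mul, abs_of_pos (by linarith : (0:ℝ) < 2 * Real.pi)]
    have h3 : |x - y| < 2 * Real.pi := by
      rw [abs_lt]; constructor <;> linarith [hx.1, hx.2, hy.1, hy.2]
    nlinarith
  let ang : V → Set ℝ := fun v => if (I v).Nonempty then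
    {θ | θ ∈ Ioo (-(Real.pi / 2)) (Real.pi / 2) ∧ Real.tan θ ∈ I v} else {Real.pi}
  have angp : ∀ v, (I v).Nonempty → ang v = {θ | θ ∈ Ioo (-(Real.pi / 2)) (Real.pi / 2) ∧
      Real.tan θ ∈ I v} := fun v hv => if_pos hv
  have angn : ∀ v, ¬ (I v).Nonempty → ang v = {Real.pi} := fun v hv => if_neg hv
  let B : Cyl V :=
    { h := h
      ang := ang
      nonempty := by
        intro v
        by_cases hv : (I v).Nonempty
        · obtain ⟨t, ht⟩ := hv
          rw [angp v ⟨t, ht⟩]
          refine ⟨Real.arctan t, Real.arctan_mem_Ioo t, ?_⟩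
          rw [Real.tan_arctan]; exact ht
        · rw [angn v hv]; exact ⟨_, rfl⟩
      conn := by
        intro v
        by_cases hv : (I v).Nonempty
        · rw [angp v hv]
          constructor
          rintro x ⟨hx1, hx2⟩ y ⟨hy1, hy2⟩ z ⟨hz1, hz2⟩
          have hz : z ∈ Ioo (-(Real.pi / 2)) (Real.pi / 2) :=
            ⟨lt_of_lt_of_le hx1.1 hz1, lt_of_le_of_lt hz2 hy1.2⟩
          refine ⟨hz, (hI v).out hx2 hy2 ⟨?_, ?_⟩⟩
          · exact Real.strictMonoOn_tan.monotoneOn hx1 hz hz1
          · exact Real.strictMonoOn_tan.monotoneOn hz hy1 hz2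
        · rw [angn v hv]; exact ordConnected_singleton
      simple := by
        intro v x hx y hy k hk
        by_cases hv : (I v).Nonempty
        · rw [angp v hv] at hx hy
          exact hin hv x y hx.1 hy.1 k hk
        · rw [angn v hv] at hx hy
          rw [mem_singleton_iff] at hx hy
          rw [hx, hy] at hk
          have : (k : ℝ) * (2 * Real.pi) = 0 := by linarith
          rcases mul_eq_zero.1 this with h1 | h1
          · exact_mod_cast h1
          · exfalso; linarith
      distinct := fun w w' _ _ _ hw => hinj hw }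
  have pres : ∀ v t, B.Pres v (Real.arctan t) ↔ t ∈ I v := by
    intro v t
    constructor
    · rintro ⟨k, hk⟩
      by_cases hv : (I v).Nonempty
      · have hk' : Real.arctan t + k * (2 * Real.pi) ∈ ang v := hk
        rw [angp v hv] at hk'
        have := hin hv _ _ hk'.1 (Real.arctan_mem_Ioo t) k rfl
        rw [this] at hk'
        have h2 := hk'.2
        simp only [Int.cast_zero, zero_mul, add_zero, Real.tan_arctan] at h2
        exact h2
      · exfalso
        have hk' : Real.arctan t + k * (2 * Real.pi) ∈ ang v := hk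
        rw [angn v hv, mem_singleton_iff] at hk'
        have ha := Real.arctan_mem_Ioo t
        rcases le_or_gt k 0 with h0 | h0
        · have : (k : ℝ) ≤ 0 := by exact_mod_cast h0
          nlinarith [ha.1, ha.2]
        · have : (1 : ℝ) ≤ k := by exact_mod_cast h0
          nlinarith [ha.1, ha.2]
    · intro ht
      apply B.pres_of_mem
      change Real.arctan t ∈ ang v
      rw [angp v ⟨t, ht⟩]
      refine ⟨Real.arctan_mem_Ioo t, ?_⟩
      rw [Real.tan_arctan]; exact ht
  let ι : Type := {e : V × V // h e.1 < h e.2 ∧ ∃ t, t ∈ I e.1 ∧ t ∈ I e.2 ∧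
      ∀ w, t ∈ I w → h e.1 < h w → ¬ h w < h e.2}
  let E : Edges B ι :=
    { lo := fun e => e.1.1
      hi := fun e => e.1.2
      th := fun e => Real.arctan e.2.2.choose
      sees := by
        intro e
        have hs := e.2.2.choose_spec
        refine ⟨(pres _ _).2 hs.1, (pres _ _).2 hs.2.1, e.2.1, ?_⟩
        intro w hw h1 h2
        exact hs.2.2 w ((pres _ _).1 hw) h1 h2
      uniq := by
        intro e f h1 h2
        exact Subtype.ext (Prod.ext h1 h2) }
  apply planar_of_edges B E G
  intro u v huv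
  have hne : h u ≠ h v := fun h' => huv.ne (hinj h')
  rcases lt_or_gt_of_ne hne with h1 | h1
  · exact ⟨⟨(u, v), h1, hG u v huv h1⟩, rfl⟩
  · exact ⟨⟨(v, u), h1, hG v u huv.symm h1⟩, Sym2.eq_swap⟩

end Pool.Agent.helper80.Bar
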