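import Pool.Agent.helper80.Bar.Defs
import Pool.Agent.helper80.Bar.Planar
/-!
Every bar 1-visibility graph is the union of three planar graphs.
-/
namespace Pool.Agent.helper80.Bar
open Set Pool.Agent.helper68.Arcs

/-- The colouring theorem for a finite family of bars with pairwise different heights. -/
theorem colouring {V : Type} [Finite V] (h l r : V → ℝ) (hinj : Function.Injective h)
    (hlr : ∀ v, l v < r v) :
    ∃ (τ : V → ℝ) (p q : V → Fin 3), ∀ t, (∀ v, t ≠ l v ∧ t ≠ r v ∧ t ≠ τ v) →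
      ∀ u v, h u < h v → l u < t → t < r u → l v < t → t < r v →
      (∀ w, l w < t → t < r w → h u < h w → ¬ h w < h v) →
      (if t < τ u then p u else q u) ≠ (if t < τ v then p v else q v) := by
  classical
  have : Fintype V := Fintype.ofFinite V
  set S : Finset ℝ := Finset.univ.image h with hS
  set b : ℝ → ℝ := Function.extend h l (fun _ => 0) with hb
  set d : ℝ → ℝ := Function.extend h r (fun _ => 0) with hd
  have eb : ∀ v, b (h v) = l v := fun v => hinj.extend_apply _ _ v
  have ed : ∀ v, d (h v) = r v := fun v => hinj.extend_apply _ _ v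
  have memS : ∀ v, h v ∈ S := fun v => Finset.mem_image.2 ⟨v, Finset.mem_univ _, rfl⟩
  obtain ⟨M, hM⟩ : ∃ M : ℝ, ∀ v, |h v| < M := by
    obtain ⟨M, hM⟩ := (Finset.univ.image fun v => |h v|).exists_le
    exact ⟨M + 1, fun v => lt_of_le_of_lt (hM _ (Finset.mem_image.2 ⟨v, Finset.mem_univ _, rfl⟩))
      (by linarith)⟩
  obtain ⟨a, ha⟩ : ∃ a : ℝ, ∀ v, a < l v := by
    obtain ⟨N, hN⟩ := (Finset.univ.image fun v => - l v).exists_le
    exact ⟨-N - 1, fun v => by
      have := hN _ (Finset.mem_image.2 ⟨v, Finset.mem_univ _, rfl⟩)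
      linarith⟩
  set M' : ℝ := max M 1 with hM'
  have hM1 : 1 ≤ M' := le_max_right _ _
  obtain ⟨c, c1, c2, c3, c4, c5⟩ := stmt_all S b d (-M') M' 0 1 a (by linarith) (by decide) (by
    intro x hx
    obtain ⟨v, -, rfl⟩ := Finset.mem_image.1 hx
    have h1 := abs_lt.1 (hM v)
    have h2 : M ≤ M' := le_max_left _ _
    refine ⟨by linarith [h1.1], by linarith [h1.2], ?_⟩
    rw [eb, ed]; exact hlr v)
  choose τ p q h1 h2 using fun v => c3 (h v) (memS v)
  refine ⟨τ, p, q, ?_⟩
  intro t ht u v huv hlu hur hlv hvr hn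
  have key : ∀ x, (if t < τ x then p x else q x) = c (h x) t := by
    intro x
    rcases lt_or_gt_of_ne (ht x).2.2 with h3 | h3
    · rw [if_pos h3, h1 x t h3]
    · rw [if_neg (not_lt.2 h3.le), h2 x t h3]
  rw [key, key]
  refine c5 t ((ha u).trans hlu) ?_ (h u) (h v) huv (Or.inr (Or.inr ⟨memS u, ?_, ?_⟩))
    (Or.inr (Or.inr ⟨memS v, ?_, ?_⟩)) ?_
  · intro x hx
    obtain ⟨w, -, rfl⟩ := Finset.mem_image.1 hx
    rw [eb, ed]
    exact ⟨(ht w).1, (ht w).2.1⟩
  · rw [eb]; exact hlu
  · rw [ed]; exact hur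
  · rw [eb]; exact hlv
  · rw [ed]; exact hvr
  · intro x hx
    obtain ⟨w, -, rfl⟩ := Finset.mem_image.1 hx.1
    have h3 := hx.2
    rw [eb, ed] at h3
    exact hn w h3.1 h3.2

/-- Heights can be made pairwise different. -/
theorem exists_rank {V : Type} [Finite V] {α : Type} [LinearOrder α] (f : V → α) :
    ∃ h : V → ℝ, ∀ u v, h u < h v ↔ f u < f v := by
  classical
  have : Fintype V := Fintype.ofFinite V
  refine ⟨fun v => ((Finset.univ.filter fun w => f w < f v).card : ℝ), ?_⟩
  have key : ∀ u v, f u < f v → (Finset.univ.filter fun w => f w < f u).card <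
      (Finset.univ.filter fun w => f w < f v).card := by
    intro u v huv
    apply Finset.card_lt_card
    rw [Finset.ssubset_iff_of_subset]
    · exact ⟨u, by simpa using huv, by simp⟩
    · intro w hw
      simp only [Finset.mem_filter, Finset.mem_univ, true_and] at hw ⊢
      exact hw.trans huv
  have key' : ∀ u v, f u ≤ f v → (Finset.univ.filter fun w => f w < f u).card ≤
      (Finset.univ.filter fun w => f w < f v).card := by
    intro u v huv
    apply Finset.card_le_card
    intro w hw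
    simp only [Finset.mem_filter, Finset.mem_univ, true_and] at hw ⊢
    exact lt_of_lt_of_le hw huv
  intro u v
  change ((Finset.univ.filter fun w => f w < f u).card : ℝ) <
    ((Finset.univ.filter fun w => f w < f v).card : ℝ) ↔ _
  constructor
  · intro h
    by_contra h'
    have := key' v u (not_lt.1 h')
    have h2 : (Finset.univ.filter fun w => f w < f u).card <
      (Finset.univ.filter fun w => f w < f v).card := by exact_mod_cast h
    omega
  · intro h
    exact_mod_cast key u v h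

variable {V : Type} [Finite V] (R : BarRep V)

theorem exists_height : ∃ h : V → ℝ, Function.Injective h ∧
    (∀ u v, h u < h v → R.y u ≤ R.y v) ∧ (∀ u v, R.y u < R.y v → h u < h v) := by
  obtain ⟨h, hh⟩ := exists_rank (fun v : V => toLex (R.y v, R.l v))
  refine ⟨h, ?_, ?_, ?_⟩
  · intro u v huv
    have h1 : ¬ toLex (R.y u, R.l u) < toLex (R.y v, R.l v) := by
      rw [← hh, huv]; exact lt_irrefl _
    have h2 : ¬ toLex (R.y v, R.l v) < toLex (R.y u, R.l u) := by
      rw [← hh, huv]; exact lt_irrefl _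
    have h3 := le_antisymm (not_lt.1 h2) (not_lt.1 h1)
    have h4 : (R.y u, R.l u) = (R.y v, R.l v) := toLex.injective h3
    exact R.l_inj u v (Prod.ext_iff.1 h4).2
  · intro u v huv
    have := (hh u v).1 huv
    rcases Prod.Lex.lt_iff.1 this with h1 | h1
    · exact h1.le
    · exact h1.1.le
  · intro u v huv
    rw [hh]
    exact Prod.Lex.lt_iff.2 (Or.inl huv)

/-- A visibility segment can be moved to a generic place. -/
theorem exists_generic (F : Set ℝ) (hF : F.Finite) (x : ℝ) :
    ∃ x', x < x' ∧ ∀ e ∈ F, x < e → x' < e := by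
  have h1 : ∀ᶠ x' in nhdsWithin x (Ioi x), ∀ e ∈ F, x < e → x' < e := by
    rw [Filter.eventually_all_finite hF]
    intro e _
    by_cases h : x < e
    · have : Iio e ∈ nhdsWithin x (Ioi x) := mem_nhdsWithin_of_mem_nhds (Iio_mem_nhds h)
      filter_upwards [this] with x' hx' _ using hx'
    · exact Filter.Eventually.of_forall fun x' h' => absurd h' h
  obtain ⟨x', h2, h3⟩ := (h1.and self_mem_nhdsWithin).exists
  exact ⟨x', h3, h2⟩

theorem mem_seg {x a b t : ℝ} (h1 : a ≤ t) (h2 : t ≤ b) :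
    (x, t) ∈ segment ℝ ((x, a) : ℝ × ℝ) (x, b) := by
  have ht : t ∈ segment ℝ a b := by
    rw [segment_eq_Icc (h1.trans h2)]; exact ⟨h1, h2⟩
  obtain ⟨c, d, hc, hd, hcd, rfl⟩ := ht
  refine ⟨c, d, hc, hd, hcd, ?_⟩
  ext
  · simp only [Prod.fst_add, Prod.smul_fst, smul_eq_mul]
    rw [← add_mul, hcd, one_mul]
  · simp

/-- Every bar 1-visibility graph is the union of three planar graphs. -/
theorem thickness_le_three : ThicknessLe (R.visGraph 1) 3 := by
  classical
  obtain ⟨h, hinj, hy1, hy2⟩ := exists_height R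
  obtain ⟨τ, p, q, hcol⟩ := colouring h R.l R.r hinj R.l_lt_r
  set col : V → ℝ → Fin 3 := fun v t => if t < τ v then p v else q v with hcoldef
  set I : Fin 3 → V → Set ℝ := fun j v => {t | (R.l v < t ∧ t < R.r v) ∧ col v t ≠ j} with hIdef
  have hI : ∀ j v, (I j v).OrdConnected := by
    intro j v
    constructor
    rintro x ⟨hx1, hx2⟩ y ⟨hy1', hy2'⟩ z ⟨hz1, hz2⟩
    refine ⟨⟨lt_of_lt_of_le hx1.1 hz1, lt_of_le_of_lt hz2 hy1'.2⟩, ?_⟩
    simp only [hcoldef] at hx2 hy2' ⊢
    by_cases h1 : z < τ v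
    · have h2 : x < τ v := lt_of_le_of_lt hz1 h1
      rw [if_pos h2] at hx2
      rw [if_pos h1]; exact hx2
    · have h2 : ¬ y < τ v := fun h' => h1 (lt_of_le_of_lt hz2 h')
      rw [if_neg h2] at hy2'
      rw [if_neg h1]; exact hy2'
  set sees : Fin 3 → V → V → Prop := fun j u v => ∃ t, t ∈ I j u ∧ t ∈ I j v ∧
    ∀ w, t ∈ I j w → h u < h w → ¬ h w < h v with hsees
  -- the three layers
  let G : Fin 3 → SimpleGraph V := fun j =>
    { Adj := fun u v => (R.visGraph 1).Adj u v ∧
        ((h u < h v → sees j u v) ∧ (h v < h u → sees j v u))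
      symm := ⟨fun u v huv => ⟨huv.1.symm, huv.2.2, huv.2.1⟩⟩
      loopless := ⟨fun u hu => hu.1.ne rfl⟩ }
  refine ⟨G, ?_, ?_⟩
  · intro j
    apply planar_of_intervals h (I j) hinj (hI j) (G j)
    intro u v huv hlt
    exact huv.2.1 hlt
  · -- every edge lies in a layer
    have main : ∀ u v, (R.visGraph 1).Adj u v → h u < h v → ∃ j, sees j u v := by
      rintro u v ⟨hne, z, hz, z', hz', hzz, hcard⟩ huv
      obtain ⟨x, yu⟩ := z
      obtain ⟨x2, yv⟩ := z'
      simp only at hzz
      subst hzz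
      obtain ⟨hxu, hyu⟩ := hz
      obtain ⟨hxv, hyv⟩ := hz'
      simp only [mem_singleton_iff] at hyu hyv hxu hxv
      subst hyu
      subst hyv
      -- a generic place
      have hfin : (range R.l ∪ range R.r ∪ range τ).Finite :=
        ((finite_range _).union (finite_range _)).union (finite_range _)
      obtain ⟨x', hxx', hx'⟩ := exists_generic _ hfin x
      have gl : ∀ w, x < R.l w → x' < R.l w := fun w => hx' _ (Or.inl (Or.inl ⟨w, rfl⟩))
      have gr : ∀ w, x < R.r w → x' < R.r w := fun w => hx' _ (Or.inl (Or.inr ⟨w, rfl⟩))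
      have gτ : ∀ w, x < τ w → x' < τ w := fun w => hx' _ (Or.inr ⟨w, rfl⟩)
      have gen : ∀ e ∈ (range R.l ∪ range R.r ∪ range τ), x' ≠ e := by
        intro e he h'
        rcases lt_or_ge x e with h1 | h1
        · exact absurd h' (hx' e he h1).ne
        · exact absurd h' (lt_of_le_of_lt h1 hxx').ne'
      have gen' : ∀ w, x' ≠ R.l w ∧ x' ≠ R.r w ∧ x' ≠ τ w := fun w =>
        ⟨gen _ (Or.inl (Or.inl ⟨w, rfl⟩)), gen _ (Or.inl (Or.inr ⟨w, rfl⟩)),
          gen _ (Or.inr ⟨w, rfl⟩)⟩
      have back : ∀ w, R.l w < x' → x' < R.r w → R.l w ≤ x ∧ x ≤ R.r w := by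
        intro w h1 h2
        refine ⟨?_, (hxx'.trans h2).le⟩
        by_contra h3
        exact absurd h1 (not_lt.2 (gl w (not_le.1 h3)).le)
      have pu : R.l u < x' ∧ x' < R.r u := ⟨hxu.1.trans hxx', gr u hxu.2⟩
      have pv : R.l v < x' ∧ x' < R.r v := ⟨hxv.1.trans hxx', gr v hxv.2⟩
      -- bars between are met by the segment
      have met : ∀ w, R.l w < x' → x' < R.r w → h u < h w → h w < h v →
          w ∈ {w | w ≠ u ∧ w ≠ v ∧
            (segment ℝ ((x, R.y u) : ℝ × ℝ) (x, R.y v) ∩ R.bar w).Nonempty} := by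
        intro w h1 h2 h3 h4
        refine ⟨fun h' => ?_, fun h' => ?_, ⟨(x, R.y w), mem_seg (hy1 u w h3) (hy1 w v h4), ?_⟩⟩
        · rw [h'] at h3; exact lt_irrefl _ h3
        · rw [h'] at h4; exact lt_irrefl _ h4
        · have := back w h1 h2
          exact ⟨⟨this.1, this.2⟩, rfl⟩
      have atmost : ∀ w w', (R.l w < x' ∧ x' < R.r w ∧ h u < h w ∧ h w < h v) →
          (R.l w' < x' ∧ x' < R.r w' ∧ h u < h w' ∧ h w' < h v) → w = w' := by
        intro w w' hw hw'
        have hle := encard_le_one_iff.1 (by simpa using hcard)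
        exact hle w w' (met w hw.1 hw.2.1 hw.2.2.1 hw.2.2.2)
          (met w' hw'.1 hw'.2.1 hw'.2.2.1 hw'.2.2.2)
      by_cases hex : ∃ w, R.l w < x' ∧ x' < R.r w ∧ h u < h w ∧ h w < h v
      · -- one bar between
        obtain ⟨w, hw⟩ := hex
        have d1 : col u x' ≠ col w x' := by
          refine hcol x' gen' u w hw.2.2.1 pu.1 pu.2 hw.1 hw.2.1 ?_
          intro w' a1 a2 a3 a4
          have := atmost w' w ⟨a1, a2, a3, a4.trans hw.2.2.2⟩ hw
          rw [this] at a4; exact lt_irrefl _ a4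
        have d2 : col w x' ≠ col v x' := by
          refine hcol x' gen' w v hw.2.2.2 hw.1 hw.2.1 pv.1 pv.2 ?_
          intro w' a1 a2 a3 a4
          have := atmost w' w ⟨a1, a2, hw.2.2.1.trans a3, a4⟩ hw
          rw [this] at a3; exact lt_irrefl _ a3
        refine ⟨col w x', x', ⟨pu, d1⟩, ⟨pv, d2.symm⟩, ?_⟩
        intro w' hw' a3 a4
        have := atmost w' w ⟨hw'.1.1, hw'.1.2, a3, a4⟩ hw
        rw [this] at hw'
        exact hw'.2 rfl
      · push Not at hex
        have d1 : col u x' ≠ col v x' := by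
          refine hcol x' gen' u v huv pu.1 pu.2 pv.1 pv.2 ?_
          intro w' a1 a2 a3
          exact not_lt.2 (hex w' a1 a2 a3)
        obtain ⟨j, hj1, hj2⟩ := exists_third (col u x') (col v x')
        refine ⟨j, x', ⟨pu, hj1.symm⟩, ⟨pv, hj2.symm⟩, ?_⟩
        intro w' hw' a3
        exact not_lt.2 (hex w' hw'.1.1 hw'.1.2 a3)
    ext u v
    rw [SimpleGraph.iSup_adj]
    constructor
    · intro huv
      have hne : h u ≠ h v := fun h' => huv.ne (hinj h')
      rcases lt_or_gt_of_ne hne with h1 | h1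
      · obtain ⟨j, hj⟩ := main u v huv h1
        exact ⟨j, huv, fun _ => hj, fun h2 => absurd h2 (not_lt.2 h1.le)⟩
      · obtain ⟨j, hj⟩ := main v u huv.symm h1
        exact ⟨j, huv, fun h2 => absurd h2 (not_lt.2 h1.le), fun _ => hj⟩
    · rintro ⟨j, hj⟩
      exact hj.1

end Pool.Agent.helper80.Bar
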